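import Pool.Agent.TH170.SL.Conv

/-!
For `N ≥ 2`, `d ≥ 2` and `k` algebraically closed of characteristic zero, the singular locus of
`M_d^N` consists exactly of the classes of the maps with a nontrivial automorphism.
-/

open Pool.Agent.Helper819.Dyn Pool.Agent.TH170.SL

theorem Pool.Agent.Results.MP_807a54_ag.SingularLocus.result
    (k : Type) [Field k] [IsAlgClosed k] [CharZero k] (N d : ℕ) (hN : 2 ≤ N) (hd : 2 ≤ d)
    (F : EndTuple k N d) : cls F ∈ singularLocus k N d ↔ ¬ AutTrivial F :=
  not_congr (regular_iff (by omega) hd (by omega) F)
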